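import Pool.Agent.H310R3.Inh.Stmts

/-!
# A compactification from a map to a compact space
-/

set_option maxHeartbeats 1000000
set_option linter.all false
set_option synthInstance.maxSize 2000

namespace Pool.Agent.Helper60.Inh

open FirstOrder FirstOrder.Language
open Pool.Agent.Helper672.ZFA
open Pool.Agent.H310 (FinP Gd)
open Pool.Agent.H310R3.Inh

universe u

section

variable {M : Type u} [L.Structure M] [hM : IsModel M] {α Y : Type u} [ITy M α] [ITy M Y]

/-- Neighbourhoods of the points of `Y`. -/
def OpenAt (Op : IPow M (IPow M Y)) (p : α → Y) (W : IPow M (α ⊕ Y)) (V : IPow M Y) : Prop :=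
  V ∈ Op ∧ (∀ z : Y, z ∈ V → (Sum.inr z : α ⊕ Y) ∈ W) ∧
    ∃ s : IPow M α, IFin s ∧ ∀ a : α, p a ∈ V → ¬ a ∈ s → (Sum.inl a : α ⊕ Y) ∈ W

theorem OpenAt.int (Op : IPow M (IPow M Y)) {p : α → Y} (hp : IntF M p) :
    Int M (fun q : IPow M (α ⊕ Y) × IPow M Y => OpenAt Op p q.1 q.2) := by
  unfold OpenAt
  (repeat' (first | with_reducible exact IntF.id | with_reducible exact IntF.fst' | with_reducible exact IntF.snd' | with_reducible exact IntF.const _ | with_reducible exact Int.const _ | assumption | with_reducible apply Int.and | with_reducible apply Int.or | with_reducible apply Int.not | with_reducible apply Int.imp | with_reducible apply Int.iff | with_reducible apply Int.ne | with_reducible apply Int.eq | with_reducible apply Int.mem | with_reducible apply Int.subset | with_reducible apply Int.ltN | with_reducible apply Int.leN | with_reducible_and_instances apply Int.le | with_reducible_and_instances apply Int.lt | with_reducible apply Int.all | with_reducible apply Int.ex | with_reducible apply IntF.fst | with_reducible apply IntF.snd | with_reducible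 apply IntF.app | with_reducible apply IntF.inl | with_reducible apply IntF.inr | with_reducible_and_instances apply IntF.mul | with_reducible_and_instances apply IntF.inv | with_reducible_and_instances apply IntF.add | with_reducible_and_instances apply IntF.sub | with_reducible_and_instances apply IntF.neg | with_reducible_and_instances apply IntF.smul | with_reducible apply Int.fin | with_reducible apply IntF.sep | with_reducible apply IntF.lam | with_reducible apply IntF.insert | with_reducible apply IntF.singleton | with_reducible apply IntF.union | with_reducible apply IntF.inter | with_reducible apply IntF.iimage | with_reducible apply IntF.ite | with_reducible apply IntF.the | with_reducible apply IntF.irec | with_reducible apply IntF.succ | with_reducible apply IntF.val | with_reducible apply IntF.mk | (with_reducible refine Int.comp ?_ ?_; assumption) | (with_reducible refine Int.comp₂ ?_ ?_ ?_; assumption) | (with_reducible refine Int.comp₃ ?_ ?_ ?_ ?_; assumption) | (with_reducible refine Int.comp₄ ?_ ?_ ?_ ?_ ?_; assumption) | (with_reducible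 refine IntF.comp ?_ ?_; assumption) | (with_reducible refine IntF.comp₂ ?_ ?_ ?_; assumption) | (with_reducible refine IntF.comp₃ ?_ ?_ ?_ ?_; assumption) | with_reducible apply IntF.pair))

theorem OpenAt.mono {Op : IPow M (IPow M Y)} {p : α → Y} {W W' : IPow M (α ⊕ Y)}
    {V : IPow M Y} (h : OpenAt Op p W V) (hW : ∀ z, z ∈ W → z ∈ W') : OpenAt Op p W' V := by
  obtain ⟨h1, h2, s, hs, h3⟩ := h
  exact ⟨h1, fun z hz => hW _ (h2 z hz), s, hs, fun a ha has => hW _ (h3 a ha has)⟩

/-- The open sets. -/
def Opn (Op : IPow M (IPow M Y)) (p : α → Y) (W : IPow M (α ⊕ Y)) : Prop :=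
  ∀ y : Y, (Sum.inr y : α ⊕ Y) ∈ W → ∃ V, OpenAt Op p W V ∧ y ∈ V

theorem Opn.int (Op : IPow M (IPow M Y)) {p : α → Y} (hp : IntF M p) :
    Int M (fun W : IPow M (α ⊕ Y) => Opn Op p W) := by
  have h := OpenAt.int Op hp
  unfold Opn
  (repeat' (first | with_reducible exact IntF.id | with_reducible exact IntF.fst' | with_reducible exact IntF.snd' | with_reducible exact IntF.const _ | with_reducible exact Int.const _ | assumption | with_reducible apply Int.and | with_reducible apply Int.or | with_reducible apply Int.not | with_reducible apply Int.imp | with_reducible apply Int.iff | with_reducible apply Int.ne | with_reducible apply Int.eq | with_reducible apply Int.mem | with_reducible apply Int.subset | with_reducible apply Int.ltN | with_reducible apply Int.leN | with_reducible_and_instances apply Int.le | with_reducible_and_instances apply Int.lt | with_reducible apply Int.all | with_reducible apply Int.ex | with_reducible apply IntF.fst | with_reducible apply IntF.snd | with_reducible apply IntF.app | with_reducible apply IntF.inl | with_reducible apply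 IntF.inr | with_reducible_and_instances apply IntF.mul | with_reducible_and_instances apply IntF.inv | with_reducible_and_instances apply IntF.add | with_reducible_and_instances apply IntF.sub | with_reducible_and_instances apply IntF.neg | with_reducible_and_instances apply IntF.smul | with_reducible apply Int.fin | with_reducible apply IntF.sep | with_reducible apply IntF.lam | with_reducible apply IntF.insert | with_reducible apply IntF.singleton | with_reducible apply IntF.union | with_reducible apply IntF.inter | with_reducible apply IntF.iimage | with_reducible apply IntF.ite | with_reducible apply IntF.the | with_reducible apply IntF.irec | with_reducible apply IntF.succ | with_reducible apply IntF.val | with_reducible apply IntF.mk | (with_reducible refine Int.comp ?_ ?_; assumption) | (with_reducible refine Int.comp₂ ?_ ?_ ?_; assumption) | (with_reducible refine Int.comp₃ ?_ ?_ ?_ ?_; assumption) | (with_reducible refine Int.comp₄ ?_ ?_ ?_ ?_ ?_; assumption) | (with_reducible refine IntF.comp ?_ ?_; assumption) | (with_reducible refine IntF.comp₂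 ?_ ?_ ?_; assumption) | (with_reducible refine IntF.comp₃ ?_ ?_ ?_ ?_; assumption) | with_reducible apply IntF.pair))

/-- The topology. -/
noncomputable def Top (Op : IPow M (IPow M Y)) (p : α → Y) : IPow M (IPow M (α ⊕ Y)) :=
  sep M fun W => Opn Op p W

theorem mem_Top (Op : IPow M (IPow M Y)) {p : α → Y} (hp : IntF M p) {W : IPow M (α ⊕ Y)} :
    W ∈ Top Op p ↔ Opn Op p W := mem_sep (Opn.int Op hp)

theorem inr_inj' : ∀ a b : Y, (Sum.inr a : α ⊕ Y) = Sum.inr b → a = b := fun a b h =>
  Sum.inr_injective h

theorem single_open (Op : IPow M (IPow M Y)) {p : α → Y} (hp : IntF M p) (a : α) :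
    ({Sum.inl a} : IPow M (α ⊕ Y)) ∈ Top Op p := by
  refine (mem_Top Op hp).2 fun y hy => ?_
  rw [mem_singleton] at hy
  cases hy

theorem compl_open {Op : IPow M (IPow M Y)} (hO : ICH M Y Op) {p : α → Y} (hp : IntF M p)
    (a : α) : ∃ W, W ∈ Top Op p ∧ ∀ z, z ∈ W ↔ z ≠ (Sum.inl a : α ⊕ Y) := by
  have h0 : Int M (fun z : α ⊕ Y => z ≠ Sum.inl a) := by (repeat' (first | with_reducible exact IntF.id | with_reducible exact IntF.fst' | with_reducible exact IntF.snd' | with_reducible exact IntF.const _ | with_reducible exact Int.const _ | assumption | with_reducible apply Int.and | with_reducible apply Int.or | with_reducible apply Int.not | with_reducible apply Int.imp | with_reducible apply Int.iff | with_reducible apply Int.ne | with_reducible apply Int.eq | with_reducible apply Int.mem | with_reducible apply Int.subset | with_reducible apply Int.ltN | with_reducible apply Int.leN | with_reducible_and_instances apply Int.le | with_reducible_and_instances apply Int.lt | with_reducible apply Int.all | with_reducible apply Int.ex | with_reducible apply IntF.fst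 | with_reducible apply IntF.snd | with_reducible apply IntF.app | with_reducible apply IntF.inl | with_reducible apply IntF.inr | with_reducible_and_instances apply IntF.mul | with_reducible_and_instances apply IntF.inv | with_reducible_and_instances apply IntF.add | with_reducible_and_instances apply IntF.sub | with_reducible_and_instances apply IntF.neg | with_reducible_and_instances apply IntF.smul | with_reducible apply Int.fin | with_reducible apply IntF.sep | with_reducible apply IntF.lam | with_reducible apply IntF.insert | with_reducible apply IntF.singleton | with_reducible apply IntF.union | with_reducible apply IntF.inter | with_reducible apply IntF.iimage | with_reducible apply IntF.ite | with_reducible apply IntF.the | with_reducible apply IntF.irec | with_reducible apply IntF.succ | with_reducible apply IntF.val | with_reducible apply IntF.mk | (with_reducible refine Int.comp ?_ ?_; assumption) | (with_reducible refine Int.comp₂ ?_ ?_ ?_; assumption) | (with_reducible refine Int.comp₃ ?_ ?_ ?_ ?_; assumption) | (with_reducible refine Int.comp₄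 ?_ ?_ ?_ ?_ ?_; assumption) | (with_reducible refine IntF.comp ?_ ?_; assumption) | (with_reducible refine IntF.comp₂ ?_ ?_ ?_; assumption) | (with_reducible refine IntF.comp₃ ?_ ?_ ?_ ?_; assumption) | with_reducible apply IntF.pair))
  refine ⟨sep M fun z : α ⊕ Y => z ≠ Sum.inl a, (mem_Top Op hp).2 fun y hy => ?_,
    fun z => mem_sep h0⟩
  refine ⟨iuniv M Y, ⟨hO.univ, fun z _ => (mem_sep h0).2 (by simp), {a}, IFin.singleton a,
    fun b _ hb => (mem_sep h0).2 fun hc => hb ?_⟩, by simp⟩
  rw [mem_singleton]
  exact Sum.inl_injective hc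

/-- The preimage of an open set under the retraction. -/
theorem pre_open {Op : IPow M (IPow M Y)} {p : α → Y} (hp : IntF M p)
    {V : IPow M Y} (hV : V ∈ Op) : ∃ W, W ∈ Top Op p ∧ (∀ y, (Sum.inr y : α ⊕ Y) ∈ W ↔ y ∈ V) ∧
      ∀ a, (Sum.inl a : α ⊕ Y) ∈ W ↔ p a ∈ V := by
  have h0 : Int M (fun z : α ⊕ Y => (∃ y, y ∈ V ∧ z = Sum.inr y) ∨
    ∃ a, p a ∈ V ∧ z = Sum.inl a) := by (repeat' (first | with_reducible exact IntF.id | with_reducible exact IntF.fst' | with_reducible exact IntF.snd' | with_reducible exact IntF.const _ | with_reducible exact Int.const _ | assumption | with_reducible apply Int.and | with_reducible apply Int.or | with_reducible apply Int.not | with_reducible apply Int.imp | with_reducible apply Int.iff | with_reducible apply Int.ne | with_reducible apply Int.eq | with_reducible apply Int.mem | with_reducible apply Int.subset | with_reducible apply Int.ltN | with_reducible apply Int.leN | with_reducible_and_instances apply Int.le | with_reducible_and_instances apply Int.lt | with_reducible apply Int.all | with_reducible apply Int.ex |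 with_reducible apply IntF.fst | with_reducible apply IntF.snd | with_reducible apply IntF.app | with_reducible apply IntF.inl | with_reducible apply IntF.inr | with_reducible_and_instances apply IntF.mul | with_reducible_and_instances apply IntF.inv | with_reducible_and_instances apply IntF.add | with_reducible_and_instances apply IntF.sub | with_reducible_and_instances apply IntF.neg | with_reducible_and_instances apply IntF.smul | with_reducible apply Int.fin | with_reducible apply IntF.sep | with_reducible apply IntF.lam | with_reducible apply IntF.insert | with_reducible apply IntF.singleton | with_reducible apply IntF.union | with_reducible apply IntF.inter | with_reducible apply IntF.iimage | with_reducible apply IntF.ite | with_reducible apply IntF.the | with_reducible apply IntF.irec | with_reducible apply IntF.succ | with_reducible apply IntF.val | with_reducible apply IntF.mk | (with_reducible refine Int.comp ?_ ?_; assumption) | (with_reducible refine Int.comp₂ ?_ ?_ ?_; assumption) | (with_reducible refine Int.comp₃ ?_ ?_ ?_ ?_; assumption) |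 (with_reducible refine Int.comp₄ ?_ ?_ ?_ ?_ ?_; assumption) | (with_reducible refine IntF.comp ?_ ?_; assumption) | (with_reducible refine IntF.comp₂ ?_ ?_ ?_; assumption) | (with_reducible refine IntF.comp₃ ?_ ?_ ?_ ?_; assumption) | with_reducible apply IntF.pair))
  have h1 : ∀ y, (Sum.inr y : α ⊕ Y) ∈ (sep M fun z : α ⊕ Y => (∃ y, y ∈ V ∧ z = Sum.inr y) ∨
    ∃ a, p a ∈ V ∧ z = Sum.inl a) ↔ y ∈ V := by
    intro y
    rw [mem_sep h0]
    constructor
    · rintro (⟨y', h1, h2⟩ | ⟨a, h1, h2⟩)
      · rw [Sum.inr_injective h2]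
        exact h1
      · cases h2
    · intro h
      exact Or.inl ⟨y, h, rfl⟩
  have h2 : ∀ a, (Sum.inl a : α ⊕ Y) ∈ (sep M fun z : α ⊕ Y => (∃ y, y ∈ V ∧ z = Sum.inr y) ∨
    ∃ a, p a ∈ V ∧ z = Sum.inl a) ↔ p a ∈ V := by
    intro a
    rw [mem_sep h0]
    constructor
    · rintro (⟨y', h1, h2⟩ | ⟨b, h1, h2⟩)
      · cases h2
      · rw [Sum.inl_injective h2]
        exact h1
    · intro h
      exact Or.inr ⟨a, h, rfl⟩
  refine ⟨_, (mem_Top Op hp).2 fun y hy => ?_, h1, h2⟩
  exact ⟨V, ⟨hV, fun z hz => (h1 z).2 hz, ∅, IFin.empty, fun a ha _ => (h2 a).2 ha⟩, (h1 y).1 hy⟩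

theorem inter_open {Op : IPow M (IPow M Y)} (hO : ICH M Y Op) {p : α → Y} (hp : IntF M p)
    (U V : IPow M (α ⊕ Y)) (hU : U ∈ Top Op p) (hV : V ∈ Top Op p) : U ∩ V ∈ Top Op p := by
  rw [mem_Top Op hp] at *
  intro y hy
  rw [mem_inter] at hy
  obtain ⟨A, ⟨h1, h2, s, hs, h3⟩, h4⟩ := hU y hy.1
  obtain ⟨B, ⟨k1, k2, t, ht, k3⟩, k4⟩ := hV y hy.2
  refine ⟨A ∩ B, ⟨hO.inter _ _ h1 k1, fun z hz => ?_, s ∪ t, hs.union ht, fun a ha has => ?_⟩,
    mem_inter.2 ⟨h4, k4⟩⟩
  · rw [mem_inter] at hz
    exact mem_inter.2 ⟨h2 z hz.1, k2 z hz.2⟩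
  · rw [mem_inter] at ha
    rw [mem_union] at has
    exact mem_inter.2 ⟨h3 a ha.1 fun h => has (Or.inl h), k3 a ha.2 fun h => has (Or.inr h)⟩

theorem union_open {Op : IPow M (IPow M Y)} {p : α → Y} (hp : IntF M p)
    (G : IPow M (IPow M (α ⊕ Y))) (hG : ∀ U, U ∈ G → U ∈ Top Op p) : isUnion G ∈ Top Op p := by
  rw [mem_Top Op hp]
  intro y hy
  rw [mem_isUnion] at hy
  obtain ⟨W, hW, hyW⟩ := hy
  obtain ⟨V, hV, hyV⟩ := (mem_Top Op hp).1 (hG W hW) y hyW
  exact ⟨V, hV.mono fun z hz => mem_isUnion.2 ⟨W, hW, hz⟩, hyV⟩

theorem cover_fin (G : IPow M (IPow M (α ⊕ Y))) (hG : ∀ z, ∃ U, U ∈ G ∧ z ∈ U) :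
    ∀ s : IPow M α, IFin s → ∃ H : IPow M (IPow M (α ⊕ Y)), IFin H ∧ (∀ U, U ∈ H → U ∈ G) ∧
      ∀ a, a ∈ s → ∃ U, U ∈ H ∧ (Sum.inl a : α ⊕ Y) ∈ U := by
  refine IFin.ind (p := fun s : IPow M α => ∃ H : IPow M (IPow M (α ⊕ Y)), IFin H ∧
    (∀ U, U ∈ H → U ∈ G) ∧ ∀ a, a ∈ s → ∃ U, U ∈ H ∧ (Sum.inl a : α ⊕ Y) ∈ U)
    (by (repeat' (first | with_reducible exact IntF.id | with_reducible exact IntF.fst' | with_reducible exact IntF.snd' | with_reducible exact IntF.const _ | with_reducible exact Int.const _ | assumption | with_reducible apply Int.and | with_reducible apply Int.or | with_reducible apply Int.not | with_reducible apply Int.imp | with_reducible apply Int.iff | with_reducible apply Int.ne | with_reducible apply Int.eq | with_reducible apply Int.mem | with_reducible apply Int.subset | with_reducible apply Int.ltN | with_reducible apply Int.leN | with_reducible_and_instances apply Int.le | with_reducible_and_instances apply Int.lt | with_reducible apply Int.all | with_reducible apply Int.ex | with_reducible apply IntF.fst | with_reducible apply IntF.snd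 | with_reducible apply IntF.app | with_reducible apply IntF.inl | with_reducible apply IntF.inr | with_reducible_and_instances apply IntF.mul | with_reducible_and_instances apply IntF.inv | with_reducible_and_instances apply IntF.add | with_reducible_and_instances apply IntF.sub | with_reducible_and_instances apply IntF.neg | with_reducible_and_instances apply IntF.smul | with_reducible apply Int.fin | with_reducible apply IntF.sep | with_reducible apply IntF.lam | with_reducible apply IntF.insert | with_reducible apply IntF.singleton | with_reducible apply IntF.union | with_reducible apply IntF.inter | with_reducible apply IntF.iimage | with_reducible apply IntF.ite | with_reducible apply IntF.the | with_reducible apply IntF.irec | with_reducible apply IntF.succ | with_reducible apply IntF.val | with_reducible apply IntF.mk | (with_reducible refine Int.comp ?_ ?_; assumption) | (with_reducible refine Int.comp₂ ?_ ?_ ?_; assumption) | (with_reducible refine Int.comp₃ ?_ ?_ ?_ ?_; assumption) | (with_reducible refine Int.comp₄ ?_ ?_ ?_ ?_ ?_; assumption)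 | (with_reducible refine IntF.comp ?_ ?_; assumption) | (with_reducible refine IntF.comp₂ ?_ ?_ ?_; assumption) | (with_reducible refine IntF.comp₃ ?_ ?_ ?_ ?_; assumption) | with_reducible apply IntF.pair))) ?_ ?_
  · exact ⟨∅, IFin.empty, fun U hU => absurd hU (by simp), fun a ha => absurd ha (by simp)⟩
  · rintro s a - - ⟨H, h1, h2, h3⟩
    obtain ⟨U, hU, haU⟩ := hG (Sum.inl a)
    refine ⟨insert U H, h1.insert U, fun V hV => ?_, fun b hb => ?_⟩
    · rcases mem_insert.1 hV with rfl | hV
      · exact hU
      · exact h2 V hV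
    · rcases mem_insert.1 hb with rfl | hb
      · exact ⟨U, mem_insert.2 (Or.inl rfl), haU⟩
      · obtain ⟨V, hV, hbV⟩ := h3 b hb
        exact ⟨V, mem_insert.2 (Or.inr hV), hbV⟩

theorem cover_fin' (Op : IPow M (IPow M Y)) {p : α → Y} (hp : IntF M p)
    (G : IPow M (IPow M (α ⊕ Y))) :
    ∀ H : IPow M (IPow M Y), IFin H → (∀ V, V ∈ H → ∃ W, W ∈ G ∧ OpenAt Op p W V) →
      ∃ (H' : IPow M (IPow M (α ⊕ Y))) (s : IPow M α), IFin H' ∧ IFin s ∧
        (∀ U, U ∈ H' → U ∈ G) ∧ ∀ V, V ∈ H →
        (∀ z : Y, z ∈ V → ∃ U, U ∈ H' ∧ (Sum.inr z : α ⊕ Y) ∈ U) ∧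
        (∀ a, p a ∈ V → ¬ a ∈ s → ∃ U, U ∈ H' ∧ (Sum.inl a : α ⊕ Y) ∈ U) := by
  have h := OpenAt.int Op hp
  refine IFin.ind (p := fun H : IPow M (IPow M Y) => (∀ V, V ∈ H → ∃ W, W ∈ G ∧ OpenAt Op p W V) →
      ∃ (H' : IPow M (IPow M (α ⊕ Y))) (s : IPow M α), IFin H' ∧ IFin s ∧
        (∀ U, U ∈ H' → U ∈ G) ∧ ∀ V, V ∈ H →
        (∀ z : Y, z ∈ V → ∃ U, U ∈ H' ∧ (Sum.inr z : α ⊕ Y) ∈ U) ∧
        (∀ a, p a ∈ V → ¬ a ∈ s → ∃ U, U ∈ H' ∧ (Sum.inl a : α ⊕ Y) ∈ U)) (by (repeat' (first | with_reducible exact IntF.id | with_reducible exact IntF.fst' | with_reducible exact IntF.snd' | with_reducible exact IntF.const _ | with_reducible exact Int.const _ | assumption | with_reducible apply Int.and | with_reducible apply Int.or | with_reducible apply Int.not | with_reducible apply Int.imp | with_reducible apply Int.iff | with_reducible apply Int.ne | with_reducible apply Int.eq | with_reducible apply Int.mem | with_reducible apply Int.subset | with_reducible apply Int.ltN | with_reducible apply Int.leN | with_reducible_and_instances apply Int.le | with_reducible_and_instances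 apply Int.lt | with_reducible apply Int.all | with_reducible apply Int.ex | with_reducible apply IntF.fst | with_reducible apply IntF.snd | with_reducible apply IntF.app | with_reducible apply IntF.inl | with_reducible apply IntF.inr | with_reducible_and_instances apply IntF.mul | with_reducible_and_instances apply IntF.inv | with_reducible_and_instances apply IntF.add | with_reducible_and_instances apply IntF.sub | with_reducible_and_instances apply IntF.neg | with_reducible_and_instances apply IntF.smul | with_reducible apply Int.fin | with_reducible apply IntF.sep | with_reducible apply IntF.lam | with_reducible apply IntF.insert | with_reducible apply IntF.singleton | with_reducible apply IntF.union | with_reducible apply IntF.inter | with_reducible apply IntF.iimage | with_reducible apply IntF.ite | with_reducible apply IntF.the | with_reducible apply IntF.irec | with_reducible apply IntF.succ | with_reducible apply IntF.val | with_reducible apply IntF.mk | (with_reducible refine Int.comp ?_ ?_; assumption) | (with_reducible refine Int.comp₂ ?_ ?_ ?_;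 assumption) | (with_reducible refine Int.comp₃ ?_ ?_ ?_ ?_; assumption) | (with_reducible refine Int.comp₄ ?_ ?_ ?_ ?_ ?_; assumption) | (with_reducible refine IntF.comp ?_ ?_; assumption) | (with_reducible refine IntF.comp₂ ?_ ?_ ?_; assumption) | (with_reducible refine IntF.comp₃ ?_ ?_ ?_ ?_; assumption) | with_reducible apply IntF.pair))) ?_ ?_
  · intro _
    exact ⟨∅, ∅, IFin.empty, IFin.empty, fun U hU => absurd hU (by simp),
      fun a ha => absurd ha (by simp)⟩
  · intro H V _ _ ih hH
    obtain ⟨H', s, h1, h2, h3, h4⟩ := ih fun V' hV' => hH V' (mem_insert.2 (Or.inr hV'))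
    obtain ⟨W, hW, k1, k2, t, ht, k3⟩ := hH V (mem_insert.2 (Or.inl rfl))
    refine ⟨insert W H', s ∪ t, h1.insert W, h2.union ht, fun U hU => ?_, fun V' hV' => ?_⟩
    · rcases mem_insert.1 hU with rfl | hU
      · exact hW
      · exact h3 U hU
    · rcases mem_insert.1 hV' with rfl | hV'
      · refine ⟨fun z hz => ⟨W, mem_insert.2 (Or.inl rfl), k2 z hz⟩, fun a ha has =>
          ⟨W, mem_insert.2 (Or.inl rfl), k3 a ha fun hat => has (mem_union.2 (Or.inr hat))⟩⟩
      · obtain ⟨m1, m2⟩ := h4 V' hV'
        refine ⟨fun z hz => ?_, fun a ha has => ?_⟩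
        · obtain ⟨U, hU, hzU⟩ := m1 z hz
          exact ⟨U, mem_insert.2 (Or.inr hU), hzU⟩
        · obtain ⟨U, hU, hzU⟩ := m2 a ha fun hat => has (mem_union.2 (Or.inl hat))
          exact ⟨U, mem_insert.2 (Or.inr hU), hzU⟩

theorem compact_Top {Op : IPow M (IPow M Y)} (hO : ICH M Y Op) {p : α → Y} (hp : IntF M p)
    (G : IPow M (IPow M (α ⊕ Y))) (hG : ∀ U, U ∈ G → U ∈ Top Op p)
    (hc : ∀ z, ∃ U, U ∈ G ∧ z ∈ U) : ∃ H : IPow M (IPow M (α ⊕ Y)), IFin H ∧
      (∀ U, U ∈ H → U ∈ G) ∧ ∀ z, ∃ U, U ∈ H ∧ z ∈ U := by
  have h := OpenAt.int Op hp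
  have h0 : Int M (fun V : IPow M Y => ∃ W, W ∈ G ∧ OpenAt Op p W V) := by (repeat' (first | with_reducible exact IntF.id | with_reducible exact IntF.fst' | with_reducible exact IntF.snd' | with_reducible exact IntF.const _ | with_reducible exact Int.const _ | assumption | with_reducible apply Int.and | with_reducible apply Int.or | with_reducible apply Int.not | with_reducible apply Int.imp | with_reducible apply Int.iff | with_reducible apply Int.ne | with_reducible apply Int.eq | with_reducible apply Int.mem | with_reducible apply Int.subset | with_reducible apply Int.ltN | with_reducible apply Int.leN | with_reducible_and_instances apply Int.le | with_reducible_and_instances apply Int.lt | with_reducible apply Int.all | with_reducible apply Int.ex | with_reducible apply IntF.fst | with_reducible apply IntF.snd | with_reducible apply IntF.app | with_reducible apply IntF.inl | with_reducible apply IntF.inr | with_reducible_and_instances apply IntF.mul | with_reducible_and_instances apply IntF.inv | with_reducible_and_instances apply IntF.add | with_reducible_and_instances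 apply IntF.sub | with_reducible_and_instances apply IntF.neg | with_reducible_and_instances apply IntF.smul | with_reducible apply Int.fin | with_reducible apply IntF.sep | with_reducible apply IntF.lam | with_reducible apply IntF.insert | with_reducible apply IntF.singleton | with_reducible apply IntF.union | with_reducible apply IntF.inter | with_reducible apply IntF.iimage | with_reducible apply IntF.ite | with_reducible apply IntF.the | with_reducible apply IntF.irec | with_reducible apply IntF.succ | with_reducible apply IntF.val | with_reducible apply IntF.mk | (with_reducible refine Int.comp ?_ ?_; assumption) | (with_reducible refine Int.comp₂ ?_ ?_ ?_; assumption) | (with_reducible refine Int.comp₃ ?_ ?_ ?_ ?_; assumption) | (with_reducible refine Int.comp₄ ?_ ?_ ?_ ?_ ?_; assumption) | (with_reducible refine IntF.comp ?_ ?_; assumption) | (with_reducible refine IntF.comp₂ ?_ ?_ ?_; assumption) | (with_reducible refine IntF.comp₃ ?_ ?_ ?_ ?_; assumption) | with_reducible apply IntF.pair))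
  obtain ⟨H, h1, h2, h3⟩ := hO.compact (sep M fun V : IPow M Y => ∃ W, W ∈ G ∧ OpenAt Op p W V)
    (fun V hV => by
      obtain ⟨W, hW, hWV⟩ := (mem_sep h0).1 hV
      exact hWV.1)
    (fun y => by
      obtain ⟨W, hW, hyW⟩ := hc (Sum.inr y)
      obtain ⟨V, hV, hyV⟩ := (mem_Top Op hp).1 (hG W hW) y hyW
      exact ⟨V, (mem_sep h0).2 ⟨W, hW, hV⟩, hyV⟩)
  obtain ⟨H', s, k1, k2, k3, k4⟩ := cover_fin' Op hp G H h1 fun V hV => (mem_sep h0).1 (h2 V hV)
  obtain ⟨H'', m1, m2, m3⟩ := cover_fin G hc s k2
  refine ⟨H' ∪ H'', k1.union m1, fun U hU => ?_, fun z => ?_⟩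
  · rcases mem_union.1 hU with hU | hU
    · exact k3 U hU
    · exact m2 U hU
  · rcases z with a | y
    · by_cases ha : a ∈ s
      · obtain ⟨U, hU, haU⟩ := m3 a ha
        exact ⟨U, mem_union.2 (Or.inr hU), haU⟩
      · obtain ⟨V, hV, haV⟩ := h3 (p a)
        obtain ⟨U, hU, haU⟩ := (k4 V hV).2 a haV ha
        exact ⟨U, mem_union.2 (Or.inl hU), haU⟩
    · obtain ⟨V, hV, hyV⟩ := h3 y
      obtain ⟨U, hU, hyU⟩ := (k4 V hV).1 y hyV
      exact ⟨U, mem_union.2 (Or.inl hU), hyU⟩

theorem haus_Top {Op : IPow M (IPow M Y)} (hO : ICH M Y Op) {p : α → Y} (hp : IntF M p)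
    (a b : α ⊕ Y) (hab : a ≠ b) : ∃ U V, U ∈ Top Op p ∧ V ∈ Top Op p ∧ a ∈ U ∧ b ∈ V ∧
      ∀ z, z ∈ U → ¬ z ∈ V := by
  rcases a with a | y
  · obtain ⟨W, h1, h2⟩ := compl_open hO hp a
    refine ⟨{Sum.inl a}, W, single_open Op hp a, h1, mem_singleton.2 rfl, (h2 b).2 hab.symm,
      fun z hz hz' => (h2 z).1 hz' (mem_singleton.1 hz)⟩
  · rcases b with b | y'
    · obtain ⟨W, h1, h2⟩ := compl_open hO hp b
      refine ⟨W, {Sum.inl b}, h1, single_open Op hp b, (h2 _).2 hab, mem_singleton.2 rfl,
        fun z hz hz' => (h2 z).1 hz (mem_singleton.1 hz')⟩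
    · obtain ⟨U, V, h1, h2, h3, h4, h5⟩ := hO.haus y y' fun h => hab (h ▸ rfl)
      obtain ⟨W, k1, k2, k3⟩ := pre_open (α := α) hp h1
      obtain ⟨W', m1, m2, m3⟩ := pre_open (α := α) hp h2
      refine ⟨W, W', k1, m1, (k2 y).2 h3, (m2 y').2 h4, fun z hz hz' => ?_⟩
      rcases z with a | z
      · exact h5 _ ((k3 a).1 hz) ((m3 a).1 hz')
      · exact h5 _ ((k2 z).1 hz) ((m2 z).1 hz')

theorem ich_Top {Op : IPow M (IPow M Y)} (hO : ICH M Y Op) {p : α → Y} (hp : IntF M p) :
    ICH M (α ⊕ Y) (Top Op p) where
  univ := (mem_Top Op hp).2 fun y _ => ⟨iuniv M Y, ⟨hO.univ, fun z _ => by simp, ∅, IFin.empty,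
    fun a _ _ => by simp⟩, by simp⟩
  inter := inter_open hO hp
  union := union_open hp
  compact := compact_Top hO hp
  haus := haus_Top hO hp

theorem ns_Top {Op : IPow M (IPow M Y)} {p : α → Y} (hp : IntF M p) (hN : NS M Y Op) :
    NS M (α ⊕ Y) (Top Op p) := by
  obtain ⟨A, ⟨z, hz⟩, hA⟩ := hN
  have hi : IntF M (fun y : Y => (Sum.inr y : α ⊕ Y)) := IntF.inr IntF.id
  refine ⟨iimage (fun y : Y => (Sum.inr y : α ⊕ Y)) A, ⟨Sum.inr z, (mem_iimage hi).2
    ⟨z, hz, rfl⟩⟩, fun w W hw hW hwW => ?_⟩
  obtain ⟨y, hy, rfl⟩ := (mem_iimage hi).1 hw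
  obtain ⟨V, ⟨h1, h2, -⟩, h3⟩ := (mem_Top Op hp).1 hW y hwW
  obtain ⟨y', k1, k2, k3⟩ := hA y V hy h1 h3
  exact ⟨Sum.inr y', (mem_iimage hi).2 ⟨y', k1, rfl⟩, h2 y' k2, fun h => k3 (Sum.inr_injective h)⟩

end

/-- The task. -/
theorem taskGlue : TaskGlue := by
  intro M _ _ α Y _ _ Op p hO hN hp hinf
  refine ⟨α ⊕ Y, inferInstance, Top Op p, Sum.inl, IntF.inl IntF.id, Sum.inl_injective,
    ich_Top hO hp, ns_Top hp hN, fun a => ⟨{Sum.inl a}, single_open Op hp a, fun z =>
      mem_singleton⟩, ?_⟩
  rintro W hW ⟨z, hz⟩
  rcases z with a | y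
  · exact ⟨a, hz⟩
  · obtain ⟨V, ⟨h1, h2, s, hs, h3⟩, h4⟩ := (mem_Top Op hp).1 hW y hz
    by_contra hc
    refine hinf V h1 ⟨y, h4⟩ ⟨s, hs, fun a ha => ?_⟩
    by_contra has
    exact hc ⟨a, h3 a ha has⟩

end Pool.Agent.Helper60.Inh
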